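import Pool.Agent.helper90.KS.Spec

set_option autoImplicit false

open scoped BigOperators

namespace Pool.Agent.KS

open Pool.Agent.helper23.TH

noncomputable section

open Classical

theorem GR : GR_stmt := by
  intro ι V _ Y r E hs hE hY
  by_cases hι : Nonempty ι
  swap
  · have : IsEmpty ι := not_nonempty_iff.1 hι
    exact ⟨fun i => isEmptyElim i, fun i => isEmptyElim i, fun i => isEmptyElim i⟩
  obtain ⟨i0⟩ := hι
  have hV : Nonempty V := by
    have h : 0 < (Y i0).card := lt_of_le_of_lt (Nat.zero_le _) (hY i0)
    obtain ⟨x, -⟩ := Finset.card_pos.1 h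
    exact ⟨x⟩
  have key : ∀ s : Finset ι, ∃ f : ι → V, (∀ i ∈ s, f i ∈ Y i) ∧
      ∀ i ∈ s, ∀ j ∈ s, i ≠ j → ¬ r (f i) (f j) := by
    intro s
    induction s using Finset.induction_on with
    | empty =>
      exact ⟨fun _ => hV.some, by simp, by simp⟩
    | insert i s hi ih =>
      obtain ⟨f, hf1, hf2⟩ := ih
      have hbad : (s.biUnion fun j => (Y i).filter fun x => r x (f j)).card < (Y i).card := by
        calc (s.biUnion fun j => (Y i).filter fun x => r x (f j)).card
            ≤ ∑ j ∈ s, ((Y i).filter fun x => r x (f j)).card := Finset.card_biUnion_le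
          _ ≤ ∑ j ∈ s, E := by
              apply Finset.sum_le_sum
              intro j hj
              apply hE i j _ (f j) (hf1 j hj)
              rintro rfl
              exact hi hj
          _ = s.card * E := by rw [Finset.sum_const, smul_eq_mul]
          _ ≤ Fintype.card ι * E := Nat.mul_le_mul_right _ (Finset.card_le_univ s)
          _ = E * Fintype.card ι := Nat.mul_comm _ _
          _ < (Y i).card := hY i
      obtain ⟨x, hx1, hx2⟩ := Finset.exists_mem_notMem_of_card_lt_card hbad
      have hx3 : ∀ j ∈ s, ¬ r x (f j) := by
        intro j hj h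
        apply hx2
        rw [Finset.mem_biUnion]
        exact ⟨j, hj, Finset.mem_filter.2 ⟨hx1, h⟩⟩
      have hne : ∀ j ∈ s, j ≠ i := by
        rintro j hj rfl
        exact hi hj
      refine ⟨Function.update f i x, ?_, ?_⟩
      · intro j hj
        rcases Finset.mem_insert.1 hj with rfl | hj
        · rw [Function.update_self]; exact hx1
        · rw [Function.update_of_ne (hne j hj)]; exact hf1 j hj
      · intro j hj k hk hjk
        rcases Finset.mem_insert.1 hj with hj' | hj'
        · rcases Finset.mem_insert.1 hk with hk' | hk'
          · exact absurd (hj'.trans hk'.symm) hjk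
          · rw [hj', Function.update_self, Function.update_of_ne (hne k hk')]
            exact hx3 k hk'
        · rcases Finset.mem_insert.1 hk with hk' | hk'
          · rw [hk', Function.update_self, Function.update_of_ne (hne j hj')]
            exact fun h => hx3 j hj' (hs _ _ h)
          · rw [Function.update_of_ne (hne j hj'), Function.update_of_ne (hne k hk')]
            exact hf2 j hj' k hk' hjk
  obtain ⟨f, hf1, hf2⟩ := key Finset.univ
  exact ⟨f, fun i => hf1 i (Finset.mem_univ _),
    fun i j h => hf2 i (Finset.mem_univ _) j (Finset.mem_univ _) h⟩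

end

end Pool.Agent.KS

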